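import Pool.Agent.H37.DEN.Targets

/-!
# Numbers of poles on a curve
-/

set_option autoImplicit false

open MvPolynomial Filter
open Pool.Agent.H12.ZD (pmap v O Res DenseOrbit NoInv)
open Pool.Agent.H18.HIT
open Pool.Agent.H8.TD
open Pool.Agent.H37.DEN

namespace Pool.Agent.H51.DEN

section pl

variable {k : Type} [Field k]

theorem pl_zero : pl (0 : LaurentSeries k) = 0 := by
  unfold pl
  rw [HahnSeries.order_zero]
  rfl

theorem pl_add (x y : LaurentSeries k) : pl (x + y) ≤ max (pl x) (pl y) := by
  by_cases h : x + y = 0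
  · rw [h, pl_zero]
    exact Nat.zero_le _
  by_cases hx : x = 0
  · rw [hx, zero_add]
    exact le_max_right _ _
  by_cases hy : y = 0
  · rw [hy, add_zero]
    exact le_max_left _ _
  have h1 := HahnSeries.min_order_le_order_add h
  unfold pl
  omega

theorem pl_mul (x y : LaurentSeries k) : pl (x * y) ≤ pl x + pl y := by
  by_cases hx : x = 0
  · rw [hx, zero_mul, pl_zero]
    exact Nat.zero_le _
  by_cases hy : y = 0
  · rw [hy, mul_zero, pl_zero]
    exact Nat.zero_le _
  have h1 := HahnSeries.order_mul hx hy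
  unfold pl
  omega

theorem pl_pow (x : LaurentSeries k) (n : ℕ) : pl (x ^ n) = n * pl x := by
  have h1 : (x ^ n).order = n • x.order := HahnSeries.order_pow x n
  unfold pl
  rw [h1, nsmul_eq_mul]
  rcases le_total 0 x.order with h | h
  · have h2 : 0 ≤ (n : ℤ) * x.order := mul_nonneg (Int.natCast_nonneg n) h
    rw [Int.toNat_of_nonpos (by omega), Int.toNat_of_nonpos (by omega), mul_zero]
  · obtain ⟨m, hm⟩ : ∃ m : ℕ, x.order = -(m : ℤ) := ⟨(-x.order).toNat, by omega⟩
    rw [hm]
    have e1 : -((n : ℤ) * -(m : ℤ)) = ((n * m : ℕ) : ℤ) := by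
      push_cast
      ring
    rw [e1, Int.toNat_natCast, neg_neg, Int.toNat_natCast]

theorem pl_C (c : k) : pl (algebraMap k (LaurentSeries k) c) = 0 := by
  unfold pl
  have h : (algebraMap k (LaurentSeries k) c).order = 0 := by
    have h1 : algebraMap k (LaurentSeries k) c = HahnSeries.C c := by
      rw [HahnSeries.algebraMap_apply', PowerSeries.algebraMap_apply,
        HahnSeries.ofPowerSeries_C]
      rfl
    rw [h1, HahnSeries.order_C]
  rw [h]
  rfl

theorem pl_smul (c : k) (x : LaurentSeries k) :
    pl (algebraMap k (LaurentSeries k) c * x) ≤ pl x := by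
  have h := pl_mul (algebraMap k (LaurentSeries k) c) x
  rwa [pl_C, zero_add] at h

theorem pl_sum {ι' : Type} (s : Finset ι') (f : ι' → LaurentSeries k) (M : ℕ)
    (h : ∀ i ∈ s, pl (f i) ≤ M) : pl (∑ i ∈ s, f i) ≤ M := by
  classical
  induction s using Finset.induction_on with
  | empty =>
    rw [Finset.sum_empty, pl_zero]
    exact Nat.zero_le _
  | insert a s ha ih =>
    rw [Finset.sum_insert ha]
    refine (pl_add _ _).trans (max_le (h a (Finset.mem_insert_self a s)) ?_)
    exact ih fun i hi => h i (Finset.mem_insert_of_mem hi)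

theorem pl_prod {ι' : Type} (s : Finset ι') (f : ι' → LaurentSeries k) :
    pl (∏ i ∈ s, f i) ≤ ∑ i ∈ s, pl (f i) := by
  classical
  induction s using Finset.induction_on with
  | empty =>
    rw [Finset.prod_empty, Finset.sum_empty]
    have h := pl_C (1 : k)
    rw [map_one] at h
    exact h.le
  | insert a s ha ih =>
    rw [Finset.prod_insert ha, Finset.sum_insert ha]
    exact (pl_mul _ _).trans (Nat.add_le_add_left ih _)

theorem pl_aeval (χ : Po 3 k →ₐ[k] LaurentSeries k) (q : Po 3 k) :
    pl (χ q) ≤ q.totalDegree * dl χ := by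
  classical
  have h0 : χ q = aeval (fun j => χ (X j)) q := by
    have h1 : χ = aeval (fun j => χ (X j)) := by
      apply algHom_ext
      intro i
      rw [aeval_X]
    exact DFunLike.congr_fun h1 q
  rw [h0, aeval_def, eval₂_eq]
  apply pl_sum
  intro m hm
  calc pl (algebraMap k (LaurentSeries k) (coeff m q) * ∏ i ∈ m.support, χ (X i) ^ m i)
      ≤ pl (algebraMap k (LaurentSeries k) (coeff m q)) +
        pl (∏ i ∈ m.support, χ (X i) ^ m i) := pl_mul _ _
    _ = pl (∏ i ∈ m.support, χ (X i) ^ m i) := by rw [pl_C, zero_add]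
    _ ≤ ∑ i ∈ m.support, pl (χ (X i) ^ m i) := pl_prod _ _
    _ ≤ ∑ i ∈ m.support, m i * dl χ := by
        apply Finset.sum_le_sum
        intro i _
        rw [pl_pow]
        apply Nat.mul_le_mul_left
        exact Finset.le_sup (f := fun j => pl (χ (X j))) (Finset.mem_univ i)
    _ = (∑ i ∈ m.support, m i) * dl χ := (Finset.sum_mul _ _ _).symm
    _ ≤ q.totalDegree * dl χ := Nat.mul_le_mul_right _ (le_totalDegree hm)

end pl

theorem pf_POL (hORD : T_ORD) : T_POL := by
  intro k _ T e m C he
  refine ⟨?_, fun i q => pl_aeval (C.ch i) q, ?_, ?_, ?_⟩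
  · intro i n q
    induction n with
    | zero =>
      have h1 : aeval (it T 0) q = q := by
        rw [it_zero]
        exact aeval_X_left_apply q
      rw [h1, pow_zero, one_mul]
    | succ n ih =>
      rw [aeval_it_succ']
      have h1 := (hORD k e _ _ he (C.pow i (aeval (it T n) q))).2.1
      have h2 : pl (C.ch i (aeval T (aeval (it T n) q))) =
          e * pl (C.ch i (aeval (it T n) q)) := by
        unfold pl
        rw [h1]
        generalize (C.ch i (aeval (it T n) q)).order = z
        rcases le_total 0 z with h | h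
        · have h2 : 0 ≤ (e : ℤ) * z := mul_nonneg (Int.natCast_nonneg e) h
          rw [Int.toNat_of_nonpos (by omega), Int.toNat_of_nonpos (by omega), mul_zero]
        · obtain ⟨m', hm⟩ : ∃ m' : ℕ, z = -(m' : ℤ) := ⟨(-z).toNat, by omega⟩
          rw [hm]
          have e1 : -((e : ℤ) * -(m' : ℤ)) = ((e * m' : ℕ) : ℤ) := by
            push_cast
            ring
          rw [e1, Int.toNat_natCast, neg_neg, Int.toNat_natCast]
      rw [h2, ih, pow_succ]
      ring
  · intro i P R J a hR
    unfold WP at hR
    induction hR using Submodule.span_induction with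
    | mem x hx =>
      obtain ⟨q, j, hq, hj, rfl⟩ := hx
      rw [map_mul, map_pow]
      refine (pl_mul _ _).trans ?_
      rw [pl_pow]
      exact Nat.add_le_add ((pl_aeval _ q).trans (Nat.mul_le_mul_right _ hq))
        (Nat.mul_le_mul_right _ hj)
    | zero =>
      rw [map_zero, pl_zero]
      exact Nat.zero_le _
    | add x y _ _ hx hy =>
      rw [map_add]
      exact (pl_add _ _).trans (max_le hx hy)
    | smul c x _ hx =>
      rw [MvPolynomial.smul_eq_C_mul, map_mul, ← MvPolynomial.algebraMap_eq, AlgHom.commutes]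
      exact (pl_smul _ _).trans hx
  · intro i P Q
    rw [map_mul]
    exact pl_mul _ _
  · intro i P n
    rw [map_pow]
    exact pl_pow _ _

end Pool.Agent.H51.DEN
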